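import Pool.Agent.W368.SV.V2a

set_option autoImplicit false

/-! Project SV of helper425, part V2: the algebraic relation (adapted from Pool.Agent.W462.SG.G2
and Pool.Agent.W342.SH.H2). -/

namespace Pool.Agent.W368.SV

open MvPolynomial Pool.Agent.H628R4.TZ Pool.Agent.W425.SM Pool.Agent.W525.SM Pool.Agent.W425.SL
  Pool.Agent.W596.SL Pool.Agent.W425.SG Pool.Agent.W425.SV
open Pool.Agent.W462.SG (ym ym_apply mu clear1)
open Pool.Agent.W342.SH (G eval_G G_zero)

variable {r N q : ℕ} {F : Type} [Field F] [Algebra F ℂ]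

lemma cast_eval (P : MvPolynomial (Fin N) F) (t : Fin N → F) :
    algebraMap F ℂ (eval t P) = eval (fun x => algebraMap F ℂ (t x)) (map (algebraMap F ℂ) P) := by
  induction P using MvPolynomial.induction_on with
  | C a => simp
  | add p q hp hq => rw [map_add, map_add, map_add, map_add, hp, hq]
  | mul_X p i hp => rw [map_mul, map_mul, map_mul, map_mul, hp, map_X, eval_X, eval_X]

theorem num_lhs (v : Fin r → Fin N → ℕ) (w : Fin q → Fin N → ℕ) (b : Fin q → F)
    (A : MvPolynomial (Fin N) (MvPolynomial (Fin r) F)) (μ0 : Fin r →₀ ℕ) :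
    ∃ (S : Finset (Fin (r + q) → ℤ)), (∀ c, c ∈ S ↔ (∀ l : Fin q, 0 ≤ c (Fin.natAdd r l)) ∧
        ∑ j, c j = 0 ∧ al v w b A μ0 c ≠ 0) ∧
      ∀ (M : ℕ), (∀ c ∈ S, ∀ j, c j ≤ M) → ∀ (u : Fin r → ℕ),
        (∏ j, ((ap q u j + M).factorial : ℂ)) *
          (algebraMap F ℂ
            (coeff (ym u + μ0) (coeff (Ex v u) (A * gp v w b ^ (∑ j, u j))))) =
          (((∑ j, u j).factorial : ℕ) : ℂ) * ∑ c ∈ S, (algebraMap F ℂ (al v w b A μ0 c)) *
          (∏ j, eval (fun m => (ap q u m : ℂ)) (ff M j (c j) * fq M j (c j))) := by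
  classical
  have hfin := al_fin v w b A μ0 0
  refine ⟨hfin.toFinset, fun c => Set.Finite.mem_toFinset hfin, fun M hM u => ?_⟩
  have h5 := reindex (ap q u) 0 hfin.toFinset
    (fun γ => (algebraMap F ℂ (al v w b A μ0 (fun j => (γ j : ℤ) - ap q u j))) *
      (Nat.multinomial Finset.univ γ : ℂ))
    (fun c hc => by
      have := ((Set.Finite.mem_toFinset hfin).1 hc).2.1
      rw [this]; rfl) (by
    intro γ hγ hne
    rw [Set.Finite.mem_toFinset]
    refine ⟨fun l => by simp [ap_right], ?_, ?_⟩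
    · rw [Finset.sum_sub_distrib, ← Nat.cast_sum, ← Nat.cast_sum, hγ]
      push_cast
      ring
    · intro h
      exact left_ne_zero_of_mul hne (by rw [h, map_zero]))
  rw [coeff_lhs, map_sum]
  have h6 : ∑ γ ∈ Finset.piAntidiag Finset.univ (∑ j, u j), algebraMap F ℂ
      (al v w b A μ0 (fun j => (γ j : ℤ) - ap q u j) * (Nat.multinomial Finset.univ γ : F)) =
      ∑ γ ∈ Finset.piAntidiag Finset.univ (∑ j, u j),
        (algebraMap F ℂ (al v w b A μ0 (fun j => (γ j : ℤ) - ap q u j))) *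
        (Nat.multinomial Finset.univ γ : ℂ) :=
    Finset.sum_congr rfl fun γ _ => by rw [map_mul, map_natCast]
  rw [h6]
  rw [add_zero, ap_sum] at h5
  rw [h5, Finset.mul_sum, Finset.mul_sum]
  refine Finset.sum_congr rfl fun c hc => ?_
  split_ifs with hpos
  swap
  · push Not at hpos
    obtain ⟨j, hj⟩ := hpos
    have hz : ∏ j, eval (fun m => (ap q u m : ℂ)) (ff M j (c j) * fq M j (c j)) = 0 :=
      Finset.prod_eq_zero (Finset.mem_univ j) (eval_fc_zero (ap q u) M j (c j) hj)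
    rw [hz]
    simp
  have h9 := ((Set.Finite.mem_toFinset hfin).1 hc).2.1
  have hcl := clear1 (ap q u) M 0 c (by rw [h9]; rfl) (hM c hc) hpos
  rw [add_zero, ap_sum] at hcl
  have hc' : (fun j => (((((ap q u j : ℤ) + c j).toNat) : ℕ) : ℤ) - ap q u j) = c := by
    funext j
    rw [Int.toNat_of_nonneg (hpos j)]
    ring
  rw [hc', mul_left_comm, hcl]
  ring

theorem num_rhs (v : Fin r → Fin N → ℕ) (w : Fin q → Fin N → ℕ) (b : Fin q → F)
    (D : Finset (Fin N → ℤ)) (T : Finset ℕ)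
    (Q : ℕ → (Fin N → ℤ) → MvPolynomial (Fin N) (MvPolynomial (Fin r) F))
    (μ0 : Fin r →₀ ℕ) :
    ∃ (S : Finset (Fin (r + q) → ℤ)), (∀ c ∈ S, (∀ l : Fin q, 0 ≤ c (Fin.natAdd r l)) ∧
        ∑ j, c j = 1) ∧
      ∀ (M : ℕ), (∀ c ∈ S, ∀ j, c j ≤ M) → ∀ (u : Fin r → ℕ),
        (∏ j, ((ap q u j + M).factorial : ℂ)) *
        (algebraMap F ℂ (coeff (ym u + μ0) (∑ m ∈ T, C (((∑ j, u j : ℕ) : F) ^ m) * ∑ δ ∈ D,
      if ∀ i, 0 ≤ (Ex v u i : ℤ) + δ i then
          eval (fun i => C ((((Ex v u i : ℤ) + δ i : ℤ)) : F)) (Q m δ) *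
          C (∏ i, ((((Ex v u i : ℤ) + δ i).toNat.descFactorial (δ i).toNat : ℕ) : F)) *
          coeff (Finsupp.equivFunOnFinite.symm fun i => ((Ex v u i : ℤ) + δ i).toNat)
            (gp v w b ^ (∑ j, u j + 1)) else 0))) =
          (((∑ j, u j).factorial : ℕ) : ℂ) *
          ((((∑ j, u j : ℕ) : ℂ) + 1) * ∑ c ∈ S,
          (∏ j, eval (fun m => (ap q u m : ℂ)) (ff M j (c j) * fq M j (c j))) *
          (∏ i, (((∑ j, u j * v j i : ℕ) + Sh (Fin.append v w) c i).toNat.descFactorial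
            (Sh (Fin.append v w) c i).toNat : ℂ)) *
          ∑ m ∈ T, ((∑ j, u j : ℕ) : ℂ) ^ m *
            eval (fun x => ((Ex v u x : ℕ) : ℂ) + ((Sh (Fin.append v w) c x : ℤ) : ℂ))
              (map (algebraMap F ℂ) (Gc v w b D Q μ0 m c))) := by
  classical
  have hfin := Gc_fin v w b D T Q μ0 1
  refine ⟨hfin.toFinset, fun c hc => ⟨((Set.Finite.mem_toFinset hfin).1 hc).1,
    ((Set.Finite.mem_toFinset hfin).1 hc).2.1⟩, fun M hM u => ?_⟩
  set n := ∑ j, u j with hn
  rw [coeff_rhs]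
  set Fu : (Fin (r + q) → ℕ) → ℂ := fun γ =>
    (Nat.multinomial Finset.univ γ : ℂ) * ∑ m ∈ T, (n : ℂ) ^ m *
      (eval (fun x => ((Ex (Fin.append v w) γ x : ℕ) : ℂ))
        (map (algebraMap F ℂ) (Gc v w b D Q μ0 m fun j => (γ j : ℤ) - ap q u j)) *
      ∏ x, ((Ex (Fin.append v w) γ x).descFactorial
        (Sh (Fin.append v w) (fun j => (γ j : ℤ) - ap q u j) x).toNat : ℂ)) with hF
  have h2 : (algebraMap F ℂ (∑ γ ∈ Finset.piAntidiag Finset.univ (n + 1),
        (Nat.multinomial Finset.univ γ : F) *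
        ∑ m ∈ T, (n : F) ^ m *
          (eval (fun x => ((Ex (Fin.append v w) γ x : ℕ) : F))
            (Gc v w b D Q μ0 m (fun j => (γ j : ℤ) - ap q u j)) *
          ∏ x, ((Ex (Fin.append v w) γ x).descFactorial
            (Sh (Fin.append v w) (fun j => (γ j : ℤ) - ap q u j) x).toNat : F))))
      = ∑ γ ∈ Finset.piAntidiag Finset.univ (n+1), Fu γ := by
    rw [hF, map_sum]
    refine Finset.sum_congr rfl fun γ _ => ?_
    rw [map_mul, map_sum, map_natCast]
    congr 1
    refine Finset.sum_congr rfl fun m _ => ?_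
    rw [map_mul, map_mul, cast_eval, map_pow, map_natCast, map_prod]
    simp only [map_natCast]
  have hsh := shift_ex (Fin.append v w) (ap q u)
  have h5 := reindex (ap q u) 1 hfin.toFinset Fu (fun c hc => by
      have := ((Set.Finite.mem_toFinset hfin).1 hc).2.1
      rw [this]; rfl) (by
    intro γ hγ hne
    rw [Set.Finite.mem_toFinset]
    refine ⟨fun l => by simp [ap_right], ?_, ?_⟩
    · rw [Finset.sum_sub_distrib, ← Nat.cast_sum, ← Nat.cast_sum, hγ]
      push_cast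
      ring
    · by_contra hno
      push Not at hno
      apply hne
      rw [hF]
      simp only
      rw [Finset.sum_eq_zero, mul_zero]
      intro m hm
      rw [hno m hm]
      simp)
  rw [ap_sum, ← hn] at h5
  rw [h2, h5, Finset.mul_sum, Finset.mul_sum, Finset.mul_sum]
  refine Finset.sum_congr rfl fun c hc => ?_
  split_ifs with hpos
  swap
  · push Not at hpos
    obtain ⟨j, hj⟩ := hpos
    have hz : ∏ j, eval (fun m => (ap q u m : ℂ)) (ff M j (c j) * fq M j (c j)) = 0 :=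
      Finset.prod_eq_zero (Finset.mem_univ j) (eval_fc_zero (ap q u) M j (c j) hj)
    rw [hz]
    simp
  have h9 := ((Set.Finite.mem_toFinset hfin).1 hc).2.1
  have h10 : ∀ j, ((((ap q u j : ℤ) + c j).toNat : ℕ) : ℤ) = (ap q u j : ℤ) + c j :=
    fun j => Int.toNat_of_nonneg (hpos j)
  have hcl := clear1 (ap q u) M 1 c (by rw [h9]; rfl) (hM c hc) hpos
  rw [ap_sum, ← hn] at hcl
  set γ : Fin (r + q) → ℕ := fun j => ((ap q u j : ℤ) + c j).toNat with hγ
  have hc' : (fun j => (γ j : ℤ) - ap q u j) = c := by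
    funext j
    rw [hγ]
    simp only
    rw [h10]
    ring
  have hshc := hsh γ
  rw [hc', Ex_ap] at hshc
  rw [hF]
  simp only
  rw [hc']
  have h14 : ∀ x, ((Ex (Fin.append v w) γ x : ℕ) : ℂ) =
      ((Ex v u x : ℕ) : ℂ) + ((Sh (Fin.append v w) c x : ℤ) : ℂ) := by
    intro x
    exact_mod_cast hshc x
  simp only [h14]
  have h15 : ∏ x, ((Ex (Fin.append v w) γ x).descFactorial
        (Sh (Fin.append v w) c x).toNat : ℂ) =
      ∏ i, (((∑ j, u j * v j i : ℕ) + Sh (Fin.append v w) c i).toNat.descFactorial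
            (Sh (Fin.append v w) c i).toNat : ℂ) := by
    refine Finset.prod_congr rfl fun i _ => ?_
    have h16 := hshc i
    rw [Ex_apply v u] at h16
    have h17 : Ex (Fin.append v w) γ i =
        (((∑ j, u j * v j i : ℕ) : ℤ) + Sh (Fin.append v w) c i).toNat := by omega
    rw [h17]
  have h12 : (((n + 1).factorial : ℕ) : ℂ) = ((n : ℂ) + 1) * (n.factorial : ℂ) := by
    rw [Nat.factorial_succ]; push_cast; ring
  rw [h12] at hcl
  rw [h15, ← mul_assoc, hcl]
  simp only [Finset.mul_sum]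
  refine Finset.sum_congr rfl fun m _ => ?_
  ring

omit [Algebra F ℂ] in
lemma al_zero (v : Fin r → Fin N → ℕ) (w : Fin q → Fin N → ℕ) (b : Fin q → F)
    (A : MvPolynomial (Fin N) (MvPolynomial (Fin r) F))
    (μ0 : Fin r →₀ ℕ) : al v w b A μ0 0 = coeff μ0 (coeff 0 A) := by
  classical
  have h0 : ∀ i, Sh (Fin.append v w) 0 i = 0 := by intro i; simp [Sh]
  unfold al
  rw [if_pos ⟨fun i => (h0 i).le, fun j => by simp⟩]
  have h1 : gam (Fin.append v w) 0 = 0 := by
    ext i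
    simp [gam, h0]
  have h2 : mu μ0 (fun j => (0 : Fin (r + q) → ℤ) (Fin.castAdd q j)) = μ0 := by
    ext j
    simp [mu]
  have h3 : cb b (0 : Fin (r + q) → ℤ) = 1 := by simp [cb]
  rw [h1, h2, h3, mul_one]

/-- the combination of the witnesses -/
lemma comb (v : Fin r → Fin N → ℕ) (w : Fin q → Fin N → ℕ)
    (hw : ∀ l : Fin q, ∃ lam : Fin r → ℝ, (∀ j, 0 ≤ lam j) ∧ ∑ j, lam j = 1 ∧
      ∀ i, ∑ j, lam j * (v j i : ℝ) ≤ (w l i : ℝ)) (c : Fin (r + q) → ℤ)
    (hc : ∀ l : Fin q, 0 ≤ c (Fin.natAdd r l)) :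
    ∃ l : Fin r → ℝ, (∀ j, 0 ≤ l j) ∧
      ∑ j, ((c (Fin.castAdd q j) : ℝ) + l j) = ((∑ j, c j : ℤ) : ℝ) ∧
      ∀ i, ∑ j, ((c (Fin.castAdd q j) : ℝ) + l j) * (v j i : ℝ) ≤
        ((Sh (Fin.append v w) c i : ℤ) : ℝ) := by
  choose lam h1 h2 h3 using hw
  refine ⟨fun j => ∑ l, (c (Fin.natAdd r l) : ℝ) * lam l j, fun j =>
    Finset.sum_nonneg fun l _ => mul_nonneg (by exact_mod_cast hc l) (h1 l j), ?_, fun i => ?_⟩
  · rw [Finset.sum_add_distrib, Finset.sum_comm, Fin.sum_univ_add]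
    push_cast
    congr 1
    refine Finset.sum_congr rfl fun l _ => ?_
    rw [← Finset.mul_sum, h2 l, mul_one]
  · rw [Pool.Agent.W342.SH.Sh_split]
    push_cast
    simp only [add_mul, Finset.sum_add_distrib]
    have e1 : ∑ j, (∑ l, (c (Fin.natAdd r l) : ℝ) * lam l j) * (v j i : ℝ) =
        ∑ l, (c (Fin.natAdd r l) : ℝ) * ∑ j, lam l j * (v j i : ℝ) := by
      simp only [Finset.sum_mul, Finset.mul_sum]
      rw [Finset.sum_comm]
      exact Finset.sum_congr rfl fun _ _ => Finset.sum_congr rfl fun _ _ => by ring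
    rw [e1]
    have e2 : ∑ l, (c (Fin.natAdd r l) : ℝ) * ∑ j, lam l j * (v j i : ℝ) ≤
        ∑ l, (c (Fin.natAdd r l) : ℝ) * (w l i : ℝ) :=
      Finset.sum_le_sum fun l _ => mul_le_mul_of_nonneg_left (h3 l i) (by exact_mod_cast hc l)
    linarith

/-- the maximal exponent -/
lemma exists_mu (s : Finset (Fin r →₀ ℕ)) (hs : s.Nonempty) (θ : Fin r → ℝ) :
    ∃ μ0 ∈ s, ∀ μ ∈ s, ∑ j, μ j ≤ ∑ j, μ0 j ∧
      (∑ j, μ j = ∑ j, μ0 j → ∑ j, (μ j : ℝ) * θ j ≤ ∑ j, (μ0 j : ℝ) * θ j) := by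
  classical
  obtain ⟨μ1, hμ1, hm1⟩ := Finset.exists_max_image s (fun μ => ∑ j, μ j) hs
  obtain ⟨μ0, hμ0, hm0⟩ := Finset.exists_max_image (s.filter fun μ => ∑ j, μ j = ∑ j, μ1 j)
    (fun μ => ∑ j, (μ j : ℝ) * θ j) ⟨μ1, Finset.mem_filter.2 ⟨hμ1, rfl⟩⟩
  rw [Finset.mem_filter] at hμ0
  refine ⟨μ0, hμ0.1, fun μ hμ => ⟨?_, fun h => hm0 μ (Finset.mem_filter.2 ⟨hμ, ?_⟩)⟩⟩
  · rw [hμ0.2]; exact hm1 μ hμ
  · rw [h, hμ0.2]

/-- main computation -/
theorem main (loc : Prop) (v : Fin r → Fin N → ℕ) (w : Fin q → Fin N → ℕ) (bb : Fin q → F)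
    (h : MvPolynomial (Fin N) F) (hgen : genH v h = gp v w bb)
    (hw : ∀ l : Fin q, ∃ lam : Fin r → ℝ, (∀ j, 0 ≤ lam j) ∧ ∑ j, lam j = 1 ∧
      ∀ i, ∑ j, lam j * (v j i : ℝ) ≤ (w l i : ℝ))
    (p : Polynomial F) (θ : Fin r → ℝ) (hθ : LinearIndependent ℚ θ)
    (hb : GenEqH loc v h ((Polynomial.X + 1) * p)) :
    RelV v θ loc (p.map (algebraMap F ℂ)) := by
  classical
  obtain ⟨A, D, T, Q, hA, hloc, hP⟩ := hb
  rw [hgen] at hP
  -- the exponent
  obtain ⟨μ0, hμ0, hmax⟩ := exists_mu (coeff 0 A).support (by rwa [support_nonempty]) θ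
  set φ : F →+* ℂ := algebraMap F ℂ with hφ
  set a0 : ℂ := φ (al v w bb A μ0 0) with ha0
  have ha0ne : a0 ≠ 0 := by
    rw [ha0, al_zero]
    exact (map_ne_zero φ).2 (mem_support_iff.1 hμ0)
  obtain ⟨S, hS, hq⟩ := num_rhs v w bb D T Q μ0
  obtain ⟨S', hS', hl⟩ := num_lhs v w bb A μ0
  obtain ⟨M, hM⟩ : ∃ M : ℕ, ∀ c ∈ S ∪ S', ∀ j, c j ≤ M := by
    refine ⟨∑ c ∈ S ∪ S', ∑ j, (c j).toNat, fun c hc j => ?_⟩
    have h1 : (c j).toNat ≤ ∑ j, (c j).toNat :=
      Finset.single_le_sum (f := fun j => (c j).toNat) (fun _ _ => Nat.zero_le _)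
        (Finset.mem_univ j)
    have h2 : ∑ j, (c j).toNat ≤ ∑ c ∈ S ∪ S', ∑ j, (c j).toNat :=
      Finset.single_le_sum (f := fun c : Fin (r + q) → ℤ => ∑ j, (c j).toNat)
        (fun _ _ => Nat.zero_le _) hc
    omega
  have hqM := hq M (fun c hc => hM c (Finset.mem_union_left _ hc))
  have hlM := hl M (fun c hc => hM c (Finset.mem_union_right _ hc))
  set σ : MvPolynomial (Fin r) ℂ := ∑ j, X j with hσ
  set pC : Polynomial ℂ := p.map φ with hpC
  set b : Polynomial ℂ := (Polynomial.X + 1) * pC with hbdef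
  have hbQ : ∀ s : ℕ, φ (((Polynomial.X + 1) * p).eval (s : F)) = b.eval (s : ℂ) := by
    intro s
    rw [hbdef, hpC, Polynomial.eval_mul, Polynomial.eval_mul, map_mul]
    congr 1
    · simp
    · rw [← map_natCast φ, Polynomial.eval_map_apply]
  -- the constants
  set kp : (Fin (r + q) → ℤ) → ℂ := fun c => ∏ l : Fin q, G M (c (Fin.natAdd r l)) 0 with hkp
  set gx : (Fin (r + q) → ℤ) → (Fin N) → MvPolynomial (Fin r) ℂ := fun c i =>
    el v i - 1 + C ((Sh (Fin.append v w) c i : ℤ) : ℂ) with hgx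
  set qt : (Fin (r + q) → ℤ) → MvPolynomial (Fin r) ℂ := fun c =>
    C (kp c) * (∏ j : Fin r, fq M j (c (Fin.castAdd q j))) *
      (∏ i ∈ Bc (Fin.append v w) c, dd v i (Sh (Fin.append v w) c i).toNat) *
      ∑ m ∈ T, σ ^ m * aeval (gx c) (map φ (Gc v w bb D Q μ0 m c)) with hqt
  -- the full relation
  have hfull : Polynomial.aeval σ b * ∑ c ∈ S', (C (φ (al v w bb A μ0 c) * kp c) *
      ∏ j : Fin r, (ff M j (c (Fin.castAdd q j)) * fq M j (c (Fin.castAdd q j)))) =
      (σ + 1) * ∑ c ∈ S, (∏ i ∈ Bc (Fin.append v w) c, el v i) *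
        ((∏ j : Fin r, if c (Fin.castAdd q j) < 0 then X j * dm M j else 1) * qt c) := by
    refine funext_set (fun _ => Set.range (Nat.cast : ℕ → ℂ))
      (fun _ => Set.infinite_range_of_injective Nat.cast_injective) fun x hx => ?_
    choose u hu using fun j => hx j (Set.mem_univ j)
    obtain rfl : x = fun j => (u j : ℂ) := funext fun j => (hu j).symm
    have hσe : eval (fun j => (u j : ℂ)) σ = ((∑ m, u m : ℕ) : ℂ) := by simp [hσ]
    -- numerical identity
    have hn0 : ((((∑ j, u j).factorial : ℕ) : ℂ)) ≠ 0 := by exact_mod_cast Nat.factorial_ne_zero _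
    have hnum : b.eval (((∑ j, u j : ℕ) : ℂ)) * ∑ c ∈ S', φ (al v w bb A μ0 c) *
          (∏ j, eval (fun m => (ap q u m : ℂ)) (ff M j (c j) * fq M j (c j))) =
        (((∑ j, u j : ℕ) : ℂ) + 1) * ∑ c ∈ S,
          (∏ j, eval (fun m => (ap q u m : ℂ)) (ff M j (c j) * fq M j (c j))) *
          (∏ i, (((∑ j, u j * v j i : ℕ) + Sh (Fin.append v w) c i).toNat.descFactorial
            (Sh (Fin.append v w) c i).toNat : ℂ)) *
          ∑ m ∈ T, ((∑ j, u j : ℕ) : ℂ) ^ m *
            eval (fun x => ((Ex v u x : ℕ) : ℂ) + ((Sh (Fin.append v w) c x : ℤ) : ℂ))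
              (map φ (Gc v w bb D Q μ0 m c)) := by
      have h1 := congrArg (fun P => φ (coeff (ym u + μ0) P)) (hP (∑ j, u j) (Ex v u))
      refine mul_left_cancel₀ hn0 ?_
      rw [← hqM u, ← h1, coeff_C_mul, map_mul, hbQ]
      linear_combination (-(b.eval (((∑ j, u j : ℕ) : ℂ)))) * hlM u
    -- splitting of the product
    have hsplit : ∀ c : Fin (r + q) → ℤ,
        (∏ j, eval (fun m => (ap q u m : ℂ)) (ff M j (c j) * fq M j (c j))) =
        kp c * ∏ j : Fin r, eval (fun m => (u m : ℂ))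
          (ff M j (c (Fin.castAdd q j)) * fq M j (c (Fin.castAdd q j))) := by
      intro c
      simp only [eval_G]
      rw [Fin.prod_univ_add, mul_comm, hkp]
      simp [ap_left, ap_right]
    rw [map_mul, eval_paeval, hσe, map_mul, map_add, hσe, map_one, map_sum, map_sum]
    have e1 : ∑ c ∈ S', eval (fun j => (u j : ℂ)) (C (φ (al v w bb A μ0 c) * kp c) *
      ∏ j : Fin r, (ff M j (c (Fin.castAdd q j)) * fq M j (c (Fin.castAdd q j)))) =
        ∑ c ∈ S', φ (al v w bb A μ0 c) *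
          (∏ j, eval (fun m => (ap q u m : ℂ)) (ff M j (c j) * fq M j (c j))) := by
      refine Finset.sum_congr rfl fun c _ => ?_
      rw [map_mul, eval_C, map_prod, hsplit]
      ring
    rw [e1, hnum]
    congr 1
    refine Finset.sum_congr rfl fun c hc => ?_
    have hA : eval (fun j => (u j : ℂ)) (∏ j : Fin r, if c (Fin.castAdd q j) < 0 then
          (X j * dm M j : MvPolynomial (Fin r) ℂ) else 1) *
          eval (fun j => (u j : ℂ)) (∏ j : Fin r, fq M j (c (Fin.castAdd q j))) =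
          ∏ j : Fin r, eval (fun m => (u m : ℂ))
            (ff M j (c (Fin.castAdd q j)) * fq M j (c (Fin.castAdd q j))) := by
      simp only [map_prod, ← Finset.prod_mul_distrib, map_mul]
      rfl
    have hB : eval (fun j => (u j : ℂ)) (∏ i ∈ Bc (Fin.append v w) c, el v i) *
          eval (fun j => (u j : ℂ)) (∏ i ∈ Bc (Fin.append v w) c,
            dd v i (Sh (Fin.append v w) c i).toNat) =
          ∏ i, (((∑ j, u j * v j i : ℕ) + Sh (Fin.append v w) c i).toNat.descFactorial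
              (Sh (Fin.append v w) c i).toNat : ℂ) := by
      rw [← Finset.prod_subset (Finset.subset_univ (Bc (Fin.append v w) c))]
      · rw [map_prod, map_prod, ← Finset.prod_mul_distrib]
        refine Finset.prod_congr rfl fun i hi => ?_
        have h10 : 0 < Sh (Fin.append v w) c i := by simpa [Bc, Sh] using hi
        rw [eval_dd _ _ _ (by omega), usum]
        have h11 : (((∑ j, u j * v j i : ℕ) : ℤ) + Sh (Fin.append v w) c i).toNat =
            ∑ j, u j * v j i + (Sh (Fin.append v w) c i).toNat := by omega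
        rw [h11]
      · intro i _ hi
        have h10 : ¬ 0 < Sh (Fin.append v w) c i := by simpa [Bc, Sh] using hi
        have : (Sh (Fin.append v w) c i).toNat = 0 := by omega
        rw [this]; simp
    have hC : eval (fun j => (u j : ℂ)) (∑ m ∈ T, σ ^ m *
          aeval (gx c) (map φ (Gc v w bb D Q μ0 m c))) =
          ∑ m ∈ T, ((∑ m, u m : ℕ) : ℂ) ^ m *
            eval (fun x => ((Ex v u x : ℕ) : ℂ) + ((Sh (Fin.append v w) c x : ℤ) : ℂ))
              (map φ (Gc v w bb D Q μ0 m c)) := by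
      rw [map_sum]
      refine Finset.sum_congr rfl fun m _ => ?_
      rw [map_mul, map_pow, hσe, eval_maeval]
      congr 3
      funext x
      rw [hgx]
      simp only [map_add, map_sub, map_one, eval_C]
      rw [eval_el, usum, Ex_apply]
      push_cast
      ring
    rw [hsplit, ← hA, ← hB, ← hC, hqt]
    simp only [map_mul, eval_C]
    ring
  -- division by `σ + 1`
  have h3 : (σ + 1) ≠ 0 := by
    intro h
    have h4 := congrArg (eval (0 : Fin r → ℂ)) h
    rw [map_add, map_one, map_zero, hσ, map_sum] at h4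
    simp at h4
  have hdiv : Polynomial.aeval σ pC * ∑ c ∈ S', (C (φ (al v w bb A μ0 c) * kp c) *
      ∏ j : Fin r, (ff M j (c (Fin.castAdd q j)) * fq M j (c (Fin.castAdd q j)))) =
      ∑ c ∈ S, (∏ i ∈ Bc (Fin.append v w) c, el v i) *
        ((∏ j : Fin r, if c (Fin.castAdd q j) < 0 then X j * dm M j else 1) * qt c) := by
    refine mul_left_cancel₀ h3 ?_
    rw [← hfull, hbdef, map_mul, map_add, Polynomial.aeval_X, map_one]
    ring
  have h0S : (0 : Fin (r + q) → ℤ) ∈ S' := by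
    rw [hS']
    refine ⟨fun l => le_rfl, by simp, ?_⟩
    intro h
    exact ha0ne (by rw [ha0, h, map_zero])
  have hk0 : a0 * kp 0 ≠ 0 := mul_ne_zero ha0ne (Finset.prod_ne_zero_iff.2 fun l _ => G_zero M)
  -- the final relation, with sums over sets
  have hrel : Polynomial.aeval σ pC * ∏ j, dm M j =
      ∑ c ∈ S, (∏ i ∈ Bc (Fin.append v w) c, el v i) *
        ((∏ j : Fin r, if c (Fin.castAdd q j) < 0 then X j * dm M j else 1) *
          (C (a0 * kp 0)⁻¹ * qt c)) +
      ∑ c ∈ S'.erase 0, (∏ j : Fin r, if c (Fin.castAdd q j) < 0 then X j * dm M j else 1) *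
        (-(C (a0 * kp 0)⁻¹ * C (φ (al v w bb A μ0 c) * kp c) *
          (∏ j : Fin r, fq M j (c (Fin.castAdd q j))) * Polynomial.aeval σ pC)) := by
    rw [← Finset.add_sum_erase S' _ h0S] at hdiv
    have e0 : C (φ (al v w bb A μ0 0) * kp 0) *
        ∏ j : Fin r, (ff M j ((0 : Fin (r + q) → ℤ) (Fin.castAdd q j)) *
          fq M j ((0 : Fin (r + q) → ℤ) (Fin.castAdd q j))) =
        C (a0 * kp 0) * (∏ j, dm M j : MvPolynomial (Fin r) ℂ) := by
      rw [← ha0]
      congr 1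
      refine Finset.prod_congr rfl fun j _ => ?_
      rw [Pi.zero_apply, fq_zero]
      unfold ff
      rw [if_neg (lt_irrefl 0), one_mul]
    rw [e0] at hdiv
    have hC1 : (C (a0 * kp 0)⁻¹ : MvPolynomial (Fin r) ℂ) * C (a0 * kp 0) = 1 := by
      rw [← C_mul, inv_mul_cancel₀ hk0, C_1]
    have e1 : ∑ c ∈ S, (∏ i ∈ Bc (Fin.append v w) c, el v i) *
        ((∏ j : Fin r, if c (Fin.castAdd q j) < 0 then X j * dm M j else 1) *
          (C (a0 * kp 0)⁻¹ * qt c)) = C (a0 * kp 0)⁻¹ *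
        ∑ c ∈ S, (∏ i ∈ Bc (Fin.append v w) c, el v i) *
        ((∏ j : Fin r, if c (Fin.castAdd q j) < 0 then X j * dm M j else 1) * qt c) := by
      rw [Finset.mul_sum]
      exact Finset.sum_congr rfl fun c _ => by ring
    rw [e1, ← hdiv, mul_add, mul_add]
    have e2 : C (a0 * kp 0)⁻¹ * (Polynomial.aeval σ pC * (C (a0 * kp 0) * ∏ j, dm M j)) =
        (C (a0 * kp 0)⁻¹ * C (a0 * kp 0)) * (Polynomial.aeval σ pC *
          (∏ j, dm M j : MvPolynomial (Fin r) ℂ)) := by ring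
    rw [e2, hC1, one_mul, add_assoc, left_eq_add, Finset.mul_sum, Finset.mul_sum,
      ← Finset.sum_add_distrib]
    refine Finset.sum_eq_zero fun c _ => ?_
    have e3 : ∏ j : Fin r, (ff M j (c (Fin.castAdd q j)) * fq M j (c (Fin.castAdd q j))) =
        (∏ j : Fin r, if c (Fin.castAdd q j) < 0 then
          (X j * dm M j : MvPolynomial (Fin r) ℂ) else 1) *
          ∏ j : Fin r, fq M j (c (Fin.castAdd q j)) := by
      rw [Finset.prod_mul_distrib]
      rfl
    rw [e3]
    ring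
  -- indexing by `Fin n`
  have hidx : ∀ (T : Finset (Fin (r + q) → ℤ)) (g : (Fin (r + q) → ℤ) → MvPolynomial (Fin r) ℂ),
      ∑ c ∈ T, g c = ∑ k : Fin T.card, g (T.equivFin.symm k) := by
    intro T g
    rw [← Finset.sum_coe_sort T]
    exact (Equiv.sum_comp T.equivFin.symm (fun c : T => g c)).symm
  rw [hidx, hidx] at hrel
  refine ⟨M, S.card, (S'.erase 0).card, fun k j => (S.equivFin.symm k : Fin (r + q) → ℤ)
    (Fin.castAdd q j), fun k => Bc (Fin.append v w) (S.equivFin.symm k),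
    fun k => C (a0 * kp 0)⁻¹ * qt (S.equivFin.symm k),
    fun k j => ((S'.erase 0).equivFin.symm k : Fin (r + q) → ℤ) (Fin.castAdd q j),
    fun k => -(C (a0 * kp 0)⁻¹ * C (φ (al v w bb A μ0 ((S'.erase 0).equivFin.symm k)) *
      kp ((S'.erase 0).equivFin.symm k)) *
          (∏ j : Fin r, fq M j (((S'.erase 0).equivFin.symm k : Fin (r + q) → ℤ)
            (Fin.castAdd q j))) * Polynomial.aeval σ pC), ?_, ?_, hrel⟩
  · intro k
    obtain ⟨hcD, hc1⟩ := hS _ (S.equivFin.symm k).2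
    set c : Fin (r + q) → ℤ := (S.equivFin.symm k : Fin (r + q) → ℤ) with hc
    obtain ⟨l, hl0, hl1, hl2⟩ := comb v w hw c hcD
    refine ⟨l, hl0, by rw [hl1, hc1]; norm_num, fun i hi => (hl2 i).trans ?_⟩
    have h10 : ¬ 0 < Sh (Fin.append v w) c i := by simpa [Bc, Sh] using hi
    exact_mod_cast not_lt.1 h10
  · intro k
    have hk := ((S'.erase 0).equivFin.symm k).2
    set c : Fin (r + q) → ℤ := ((S'.erase 0).equivFin.symm k : Fin (r + q) → ℤ) with hc
    rw [Finset.mem_erase, hS'] at hk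
    obtain ⟨hc0, hcD, hcs, hca⟩ := hk
    have hcond : (∀ i, Sh (Fin.append v w) c i ≤ 0) ∧ (∀ j, c (Fin.castAdd q j) ≤ μ0 j) := by
      by_contra h5
      apply hca
      unfold al
      rw [if_neg h5]
    obtain ⟨h4, h4'⟩ := hcond
    have hval : al v w bb A μ0 c = coeff (mu μ0 (fun j => c (Fin.castAdd q j)))
        (coeff (gam (Fin.append v w) c) A) * cb bb c := by
      unfold al
      rw [if_pos ⟨h4, h4'⟩]
    by_cases h5 : ∀ i, Sh (Fin.append v w) c i = 0
    · left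
      have h6 : gam (Fin.append v w) c = 0 := by
        ext i
        simp [gam, h5]
      rw [hval, h6] at hca
      obtain ⟨h7, h7'⟩ := hmax (mu μ0 (fun j => c (Fin.castAdd q j)))
        (mem_support_iff.2 (left_ne_zero_of_mul hca))
      have h8z : ∀ j, ((mu μ0 (fun j => c (Fin.castAdd q j)) j : ℕ) : ℤ) =
          (μ0 j : ℤ) - c (Fin.castAdd q j) := by
        intro j
        have := h4' j
        simp only [mu, Finsupp.equivFunOnFinite_symm_apply_apply]
        omega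
      have h8 : ∀ j, ((mu μ0 (fun j => c (Fin.castAdd q j)) j : ℕ) : ℝ) =
          (μ0 j : ℝ) - (c (Fin.castAdd q j) : ℝ) := by
        intro j
        have h10 : ((((mu μ0 (fun j => c (Fin.castAdd q j)) j : ℕ) : ℤ)) : ℝ) =
          (((μ0 j : ℤ) - c (Fin.castAdd q j) : ℤ) : ℝ) := by rw [h8z]
        push_cast at h10
        exact h10
      have h11 : ((∑ j, mu μ0 (fun j => c (Fin.castAdd q j)) j : ℕ) : ℤ) =
          ((∑ j, μ0 j : ℕ) : ℤ) - ∑ j, c (Fin.castAdd q j) := by
        push_cast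
        rw [← Finset.sum_sub_distrib]
        exact Finset.sum_congr rfl fun j _ => h8z j
      have hcs' := hcs
      rw [Fin.sum_univ_add] at hcs'
      have h12 : 0 ≤ ∑ l : Fin q, c (Fin.natAdd r l) := Finset.sum_nonneg fun l _ => hcD l
      have h13 : ∑ l : Fin q, c (Fin.natAdd r l) = 0 := by omega
      have h14 : ∑ j, c (Fin.castAdd q j) = 0 := by omega
      have h15 : ∀ l : Fin q, c (Fin.natAdd r l) = 0 := fun l =>
        (Finset.sum_eq_zero_iff_of_nonneg (fun l _ => hcD l)).1 h13 l (Finset.mem_univ l)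
      have h16 := h7' (by omega)
      have h9 : 0 ≤ ∑ j, (c (Fin.castAdd q j) : ℝ) * θ j := by
        have h10 : ∑ j, ((mu μ0 (fun j => c (Fin.castAdd q j)) j : ℕ) : ℝ) * θ j =
            ∑ j, (μ0 j : ℝ) * θ j - ∑ j, (c (Fin.castAdd q j) : ℝ) * θ j := by
          rw [← Finset.sum_sub_distrib]
          refine Finset.sum_congr rfl fun j _ => ?_
          rw [h8]; ring
        rw [h10] at h16
        linarith
      refine ⟨h14, fun i => ?_, lt_of_le_of_ne h9 fun h => hc0 ?_⟩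
      · have h17 := h5 i
        rw [Pool.Agent.W342.SH.Sh_split] at h17
        simpa [h15] using h17
      · have h11 := Fintype.linearIndependent_iff.1 hθ
          (fun j => ((c (Fin.castAdd q j) : ℤ) : ℚ)) (by
          rw [h]
          refine Finset.sum_congr rfl fun j _ => ?_
          rw [Rat.smul_def]
          push_cast
          rfl)
        funext j
        refine Fin.addCases (fun j => ?_) (fun l => ?_) j
        · exact_mod_cast h11 j
        · exact h15 l
    · right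
      push Not at h5
      obtain ⟨i, hi⟩ := h5
      obtain ⟨l, hl0, hl1, hl2⟩ := comb v w hw c hcD
      refine ⟨?_, l, hl0, by rw [hl1, hcs]; norm_num, fun i => (hl2 i).trans
        (by exact_mod_cast h4 i), i, (hl2 i).trans_lt
        (by exact_mod_cast lt_of_le_of_ne (h4 i) hi)⟩
      by_contra hl'
      apply hca
      rw [hval, hloc hl' (gam (Fin.append v w) c), coeff_zero, zero_mul]
      intro h6
      have h7 := DFunLike.congr_fun h6 i
      simp only [gam, Finsupp.equivFunOnFinite_symm_apply_apply, Finsupp.coe_zero,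
        Pi.zero_apply] at h7
      have h8 := h4 i
      omega

theorem taskV2 : TaskV2 := by
  intro r N F _ _ loc v h p θ hθ hNP hb
  obtain ⟨q, w, b, hw, hgen⟩ := genH_append v h
  refine main loc v w b h hgen (fun l => ?_) p θ hθ hb
  obtain ⟨g, hg, hgw⟩ := hw l
  obtain ⟨lam, h1, h2, h3⟩ := hNP g hg
  exact ⟨lam, h1, h2, fun i => by rw [hgw i]; exact h3 i⟩

end Pool.Agent.W368.SV
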