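import Pool.Agent.W425.SV.Defs
import Pool.Agent.W462.SG.G2
import Pool.Agent.W342.SH.H2

set_option autoImplicit false

/-! Project SV of helper425, part V2: extraction of the coefficients (adapted from
Pool.Agent.W462.SG.G2a and Pool.Agent.W342.SH.H2). -/

namespace Pool.Agent.W368.SV

open MvPolynomial Pool.Agent.H628R4.TZ Pool.Agent.W425.SM Pool.Agent.W525.SM Pool.Agent.W425.SL
  Pool.Agent.W596.SL Pool.Agent.W425.SG Pool.Agent.W425.SV
open Pool.Agent.W462.SG (ym ym_apply term_mono' mu ym_le ym_sub mu_fin)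

variable {r N q : ℕ} {F : Type} [Field F]

lemma prod_X_ym (u : Fin r → ℕ) :
    (∏ j, X j ^ u j : MvPolynomial (Fin r) F) = monomial (ym u) 1 := by
  rw [monomial_eq, Finsupp.prod_fintype _ _ (by simp)]
  simp [ym]

/-- the generic polynomial, with the two systems of exponents -/
noncomputable def gp (v : Fin r → Fin N → ℕ) (w : Fin q → Fin N → ℕ) (b : Fin q → F) :
    MvPolynomial (Fin N) (MvPolynomial (Fin r) F) :=
  ∑ j, C (Fin.append (fun j => (X j : MvPolynomial (Fin r) F)) (fun l => C (b l)) j) *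
    ∏ i, X i ^ (Fin.append v w) j i

/-- `genH` as a sum over two systems of exponents -/
lemma genH_append (v : Fin r → Fin N → ℕ) (h : MvPolynomial (Fin N) F) :
    ∃ (q : ℕ) (w : Fin q → Fin N → ℕ) (b : Fin q → F),
      (∀ l, ∃ g ∈ h.support, ∀ i, w l i = g i) ∧ genH v h = gp v w b := by
  classical
  set e := h.support.equivFin with he
  refine ⟨h.support.card, fun l i => (e.symm l : Fin N →₀ ℕ) i, fun l => coeff (e.symm l) h,
    fun l => ⟨_, (e.symm l).2, fun i => rfl⟩, ?_⟩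
  unfold genH gp
  rw [Fin.sum_univ_add]
  simp only [Fin.append_left, Fin.append_right]
  congr 1
  have h1 : h = ∑ g ∈ h.support, monomial g (coeff g h) := h.support_sum_monomial_coeff.symm
  have h2 : ∀ g : Fin N →₀ ℕ, (map C (monomial g (coeff g h)) :
      MvPolynomial (Fin N) (MvPolynomial (Fin r) F)) =
      C (C (coeff g h)) * ∏ i, X i ^ g i := by
    intro g
    rw [map_monomial, monomial_eq, Finsupp.prod_fintype _ _ (by simp)]
  conv_lhs => rw [h1]
  rw [map_sum, ← Finset.sum_coe_sort h.support]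
  rw [← Equiv.sum_comp e.symm]
  exact Finset.sum_congr rfl fun l _ => h2 _

/-- the product of the powers of the coefficients `b` -/
noncomputable def cb (b : Fin q → F) (c : Fin (r + q) → ℤ) : F :=
  ∏ l, b l ^ (c (Fin.natAdd r l)).toNat

lemma gp_pow (v : Fin r → Fin N → ℕ) (w : Fin q → Fin N → ℕ) (b : Fin q → F) (n : ℕ) :
    gp v w b ^ n = ∑ γ ∈ Finset.piAntidiag Finset.univ n,
      monomial (Ex (Fin.append v w) γ) (monomial (ym (fun j => γ (Fin.castAdd q j)))
        ((Nat.multinomial Finset.univ γ : F) * ∏ l, b l ^ γ (Fin.natAdd r l))) := by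
  unfold gp
  rw [Finset.sum_pow_eq_sum_piAntidiag]
  refine Finset.sum_congr rfl fun γ _ => ?_
  rw [term_mono', Fin.prod_univ_add]
  simp only [Fin.append_left, Fin.append_right]
  have h1 : ∏ l, (C (b l) : MvPolynomial (Fin r) F) ^ γ (Fin.natAdd r l) =
      C (∏ l, b l ^ γ (Fin.natAdd r l)) := by
    rw [map_prod]
    exact Finset.prod_congr rfl fun i _ => (map_pow _ _ _).symm
  rw [h1, prod_X_ym (fun j => γ (Fin.castAdd q j)), mul_comm (monomial _ _) (C _), C_mul_monomial,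
    ← map_natCast (C (σ := Fin N) (R := MvPolynomial (Fin r) F)),
    C_mul_monomial, ← map_natCast (C (σ := Fin r) (R := F)), C_mul_monomial, mul_one]

/-- `u` extended by zero -/
def ap (q : ℕ) (u : Fin r → ℕ) : Fin (r + q) → ℕ := Fin.append u (fun _ => 0)

lemma ap_left (u : Fin r → ℕ) (j : Fin r) : ap q u (Fin.castAdd q j) = u j := by simp [ap]

lemma ap_right (u : Fin r → ℕ) (l : Fin q) : ap q u (Fin.natAdd r l) = 0 := by simp [ap]

lemma ap_sum (u : Fin r → ℕ) : ∑ j, ap q u j = ∑ j, u j := by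
  rw [Fin.sum_univ_add]
  simp [ap_left, ap_right]

lemma Ex_ap (v : Fin r → Fin N → ℕ) (w : Fin q → Fin N → ℕ) (u : Fin r → ℕ) :
    Ex (Fin.append v w) (ap q u) = Ex v u := by
  ext i
  rw [Ex_apply, Ex_apply, Fin.sum_univ_add]
  simp [ap_left, ap_right]

lemma cb_ap (b : Fin q → F) (u : Fin r → ℕ) (γ : Fin (r + q) → ℕ) :
    cb b (fun j => (γ j : ℤ) - ap q u j) = ∏ l, b l ^ γ (Fin.natAdd r l) := by
  unfold cb
  refine Finset.prod_congr rfl fun l _ => ?_
  simp only [ap_right]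
  congr 1

/-! ### the left side -/

open Classical in
/-- the coefficient of `A` belonging to `c` -/
noncomputable def al (v : Fin r → Fin N → ℕ) (w : Fin q → Fin N → ℕ) (b : Fin q → F)
    (A : MvPolynomial (Fin N) (MvPolynomial (Fin r) F))
    (μ0 : Fin r →₀ ℕ) (c : Fin (r + q) → ℤ) : F :=
  if (∀ i, Sh (Fin.append v w) c i ≤ 0) ∧ (∀ j, c (Fin.castAdd q j) ≤ μ0 j) then
    coeff (mu μ0 (fun j => c (Fin.castAdd q j))) (coeff (gam (Fin.append v w) c) A) * cb b c
  else 0

lemma coeff_lhs (v : Fin r → Fin N → ℕ) (w : Fin q → Fin N → ℕ) (b : Fin q → F)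
    (A : MvPolynomial (Fin N) (MvPolynomial (Fin r) F))
    (μ0 : Fin r →₀ ℕ) (u : Fin r → ℕ) (n : ℕ) :
    coeff (ym u + μ0) (coeff (Ex v u) (A * gp v w b ^ n)) =
      ∑ γ ∈ Finset.piAntidiag Finset.univ n,
        al v w b A μ0 (fun j => (γ j : ℤ) - ap q u j) *
          (Nat.multinomial Finset.univ γ : F) := by
  classical
  rw [gp_pow, Finset.mul_sum, coeff_sum, coeff_sum]
  refine Finset.sum_congr rfl fun γ _ => ?_
  rw [coeff_mul_monomial']
  have hsh := shift_ex (Fin.append v w) (ap q u) γ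
  rw [Ex_ap] at hsh
  unfold al
  rw [cb_ap]
  simp only [ap_left]
  by_cases hle : Ex (Fin.append v w) γ ≤ Ex v u
  · have h3 : ∀ i, Sh (Fin.append v w) (fun j => (γ j : ℤ) - ap q u j) i ≤ 0 := by
      intro i
      have h4 := hle i
      have h5 := hsh i
      omega
    rw [if_pos hle, coeff_mul_monomial']
    by_cases hy : ∀ j, (γ (Fin.castAdd q j) : ℤ) - u j ≤ μ0 j
    · rw [if_pos ((ym_le u (fun j => γ (Fin.castAdd q j)) μ0).2 hy), if_pos ⟨h3, hy⟩,
        ym_sub u (fun j => γ (Fin.castAdd q j)) μ0 hy]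
      have h6 : Ex v u - Ex (Fin.append v w) γ =
          gam (Fin.append v w) (fun j => (γ j : ℤ) - ap q u j) := by
        ext i
        have h4 := hle i
        have h5 := hsh i
        simp only [gam, Finsupp.equivFunOnFinite_symm_apply_apply, Finsupp.tsub_apply]
        omega
      rw [h6]
      ring
    · rw [if_neg (fun h => hy ((ym_le u (fun j => γ (Fin.castAdd q j)) μ0).1 h)),
        if_neg (fun h => hy h.2), zero_mul]
  · have h3 : ¬ ∀ i, Sh (Fin.append v w) (fun j => (γ j : ℤ) - ap q u j) i ≤ 0 := by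
      intro h4
      apply hle
      intro i
      have h5 := hsh i
      have h6 := h4 i
      omega
    rw [if_neg hle, if_neg (fun h => h3 h.1), zero_mul, coeff_zero]

/-! ### the right side -/

/-- the coefficient of `y ^ μ` -/
noncomputable def Qy (μ : Fin r →₀ ℕ) (Q : MvPolynomial (Fin N) (MvPolynomial (Fin r) F)) :
    MvPolynomial (Fin N) F := ∑ g ∈ Q.support, monomial g (coeff μ (coeff g Q))

lemma coeff_mul_C' (μ : Fin r →₀ ℕ) (P : MvPolynomial (Fin r) F) (x : F) :
    coeff μ (P * C x) = coeff μ P * x := by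
  rw [mul_comm, coeff_C_mul, mul_comm]

lemma coeff_eval_C (Q : MvPolynomial (Fin N) (MvPolynomial (Fin r) F)) (t : Fin N → F)
    (μ : Fin r →₀ ℕ) : coeff μ (eval (fun i => C (t i)) Q) = eval t (Qy μ Q) := by
  unfold Qy
  rw [eval_eq', coeff_sum, map_sum]
  refine Finset.sum_congr rfl fun g _ => ?_
  rw [eval_monomial, Finsupp.prod_fintype _ _ (by simp)]
  have : ∏ i, (C (t i) : MvPolynomial (Fin r) F) ^ g i = C (∏ i, t i ^ g i) := by
    rw [map_prod]
    exact Finset.prod_congr rfl fun i _ => (map_pow _ _ _).symm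
  rw [this, coeff_mul_C']

open Classical in
/-- the polynomial belonging to `c` -/
noncomputable def Gc (v : Fin r → Fin N → ℕ) (w : Fin q → Fin N → ℕ) (b : Fin q → F)
    (D : Finset (Fin N → ℤ))
    (Q : ℕ → (Fin N → ℤ) → MvPolynomial (Fin N) (MvPolynomial (Fin r) F)) (μ0 : Fin r →₀ ℕ)
    (m : ℕ) (c : Fin (r + q) → ℤ) : MvPolynomial (Fin N) F :=
  if Sh (Fin.append v w) c ∈ D ∧ ∀ j, c (Fin.castAdd q j) ≤ μ0 j then
    C (cb b c) * Qy (mu μ0 (fun j => c (Fin.castAdd q j))) (Q m (Sh (Fin.append v w) c)) else 0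

lemma coeff_gp (v : Fin r → Fin N → ℕ) (w : Fin q → Fin N → ℕ) (b : Fin q → F)
    (e : Fin N →₀ ℕ) (n : ℕ) :
    open scoped Classical in
    coeff e (gp v w b ^ n) = ∑ γ ∈ Finset.piAntidiag Finset.univ n,
      if Ex (Fin.append v w) γ = e then monomial (ym (fun j => γ (Fin.castAdd q j)))
        ((Nat.multinomial Finset.univ γ : F) * ∏ l, b l ^ γ (Fin.natAdd r l)) else 0 := by
  classical
  rw [gp_pow, coeff_sum]
  refine Finset.sum_congr rfl fun γ _ => ?_
  rw [coeff_monomial]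

lemma coeff_rhs (v : Fin r → Fin N → ℕ) (w : Fin q → Fin N → ℕ) (b : Fin q → F)
    (D : Finset (Fin N → ℤ)) (T : Finset ℕ)
    (Q : ℕ → (Fin N → ℤ) → MvPolynomial (Fin N) (MvPolynomial (Fin r) F))
    (μ0 : Fin r →₀ ℕ) (u : Fin r → ℕ) (n : ℕ) :
    coeff (ym u + μ0) (∑ m ∈ T, C ((n : F) ^ m) * ∑ δ ∈ D,
      if ∀ i, 0 ≤ (Ex v u i : ℤ) + δ i then
          eval (fun i => C ((((Ex v u i : ℤ) + δ i : ℤ)) : F)) (Q m δ) *
          C (∏ i, ((((Ex v u i : ℤ) + δ i).toNat.descFactorial (δ i).toNat : ℕ) : F)) *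
          coeff (Finsupp.equivFunOnFinite.symm fun i => ((Ex v u i : ℤ) + δ i).toNat)
            (gp v w b ^ (n + 1)) else 0) =
      ∑ γ ∈ Finset.piAntidiag Finset.univ (n + 1), (Nat.multinomial Finset.univ γ : F) *
        ∑ m ∈ T, (n : F) ^ m *
          (eval (fun x => ((Ex (Fin.append v w) γ x : ℕ) : F))
            (Gc v w b D Q μ0 m (fun j => (γ j : ℤ) - ap q u j)) *
          ∏ x, ((Ex (Fin.append v w) γ x).descFactorial
            (Sh (Fin.append v w) (fun j => (γ j : ℤ) - ap q u j) x).toNat : F)) := by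
  classical
  rw [coeff_sum]
  have hm : ∀ m ∈ T, coeff (ym u + μ0) (C ((n : F) ^ m) * ∑ δ ∈ D,
      if ∀ i, 0 ≤ (Ex v u i : ℤ) + δ i then
          eval (fun i => C ((((Ex v u i : ℤ) + δ i : ℤ)) : F)) (Q m δ) *
          C (∏ i, ((((Ex v u i : ℤ) + δ i).toNat.descFactorial (δ i).toNat : ℕ) : F)) *
          coeff (Finsupp.equivFunOnFinite.symm fun i => ((Ex v u i : ℤ) + δ i).toNat)
            (gp v w b ^ (n + 1)) else 0) =
      ∑ γ ∈ Finset.piAntidiag Finset.univ (n + 1), (n : F) ^ m *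
        ((Nat.multinomial Finset.univ γ : F) *
          (eval (fun x => ((Ex (Fin.append v w) γ x : ℕ) : F))
            (Gc v w b D Q μ0 m (fun j => (γ j : ℤ) - ap q u j)) *
          ∏ x, ((Ex (Fin.append v w) γ x).descFactorial
            (Sh (Fin.append v w) (fun j => (γ j : ℤ) - ap q u j) x).toNat : F))) := by
    intro m _
    rw [coeff_C_mul, coeff_sum, ← Finset.mul_sum]
    congr 1
    -- one δ
    have h1 : ∀ δ ∈ D, coeff (ym u + μ0) (if ∀ i, 0 ≤ (Ex v u i : ℤ) + δ i then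
          eval (fun i => C ((((Ex v u i : ℤ) + δ i : ℤ)) : F)) (Q m δ) *
          C (∏ i, ((((Ex v u i : ℤ) + δ i).toNat.descFactorial (δ i).toNat : ℕ) : F)) *
          coeff (Finsupp.equivFunOnFinite.symm fun i => ((Ex v u i : ℤ) + δ i).toNat)
            (gp v w b ^ (n + 1)) else 0) =
        ∑ γ ∈ Finset.piAntidiag Finset.univ (n + 1),
          if Sh (Fin.append v w) (fun j => (γ j : ℤ) - ap q u j) = δ then
          ((Nat.multinomial Finset.univ γ : F) *
          (eval (fun x => ((Ex (Fin.append v w) γ x : ℕ) : F))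
            (if ∀ j, (γ (Fin.castAdd q j) : ℤ) - u j ≤ μ0 j then
            C (∏ l, b l ^ γ (Fin.natAdd r l)) *
              Qy (mu μ0 (fun j => (γ (Fin.castAdd q j) : ℤ) - u j)) (Q m δ) else 0) *
          ∏ x, ((Ex (Fin.append v w) γ x).descFactorial (δ x).toNat : F))) else 0 := by
      intro δ _
      have h2 : ∀ γ : Fin (r + q) → ℕ,
          Sh (Fin.append v w) (fun j => (γ j : ℤ) - ap q u j) = δ ↔
          (∀ i, 0 ≤ (Ex v u i : ℤ) + δ i) ∧ Ex (Fin.append v w) γ =
            (Finsupp.equivFunOnFinite.symm fun i => ((Ex v u i : ℤ) + δ i).toNat) := by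
        intro γ
        have hsh := shift_ex (Fin.append v w) (ap q u) γ
        rw [Ex_ap] at hsh
        constructor
        · rintro rfl
          refine ⟨fun i => by rw [← hsh i]; omega, ?_⟩
          ext i
          simp only [Finsupp.equivFunOnFinite_symm_apply_apply]
          rw [← hsh i]
          omega
        · rintro ⟨h3, h4⟩
          funext i
          have h5 := DFunLike.congr_fun h4 i
          simp only [Finsupp.equivFunOnFinite_symm_apply_apply] at h5
          have h6 := hsh i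
          have h7 := h3 i
          omega
      split_ifs with hpos
      swap
      · rw [coeff_zero, Finset.sum_eq_zero]
        intro γ _
        rw [if_neg]
        intro h3
        exact hpos ((h2 γ).1 h3).1
      rw [coeff_gp, Finset.mul_sum, coeff_sum]
      refine Finset.sum_congr rfl fun γ _ => ?_
      by_cases hγ : Sh (Fin.append v w) (fun j => (γ j : ℤ) - ap q u j) = δ
      swap
      · rw [if_neg hγ, if_neg (fun h3 => hγ ((h2 γ).2 ⟨hpos, h3⟩)), mul_zero, coeff_zero]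
      rw [if_pos hγ, if_pos ((h2 γ).1 hγ).2]
      have hsh := shift_ex (Fin.append v w) (ap q u) γ
      rw [hγ, Ex_ap] at hsh
      have h8 : (fun i => (C ((((Ex v u i : ℤ) + δ i : ℤ)) : F) : MvPolynomial (Fin r) F)) =
          fun i => C (((Ex (Fin.append v w) γ i : ℕ) : F)) := by
        funext i
        rw [← hsh i]
        push_cast
        rfl
      have h9 : (∏ i, ((((Ex v u i : ℤ) + δ i).toNat.descFactorial (δ i).toNat : ℕ) : F)) =
          ∏ x, ((Ex (Fin.append v w) γ x).descFactorial (δ x).toNat : F) := by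
        refine Finset.prod_congr rfl fun i _ => ?_
        rw [← hsh i, Int.toNat_natCast]
      rw [h8, h9, coeff_mul_monomial']
      by_cases hy : ∀ j, (γ (Fin.castAdd q j) : ℤ) - u j ≤ μ0 j
      · rw [if_pos ((ym_le u (fun j => γ (Fin.castAdd q j)) μ0).2 hy), if_pos hy,
          ym_sub u (fun j => γ (Fin.castAdd q j)) μ0 hy, coeff_mul_C', coeff_eval_C, map_mul,
          eval_C]
        ring
      · rw [if_neg (fun h => hy ((ym_le u (fun j => γ (Fin.castAdd q j)) μ0).1 h)), if_neg hy]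
        simp
    rw [Finset.sum_congr rfl h1, Finset.sum_comm]
    refine Finset.sum_congr rfl fun γ _ => ?_
    unfold Gc
    rw [cb_ap]
    simp only [ap_left]
    by_cases hD : Sh (Fin.append v w) (fun j => (γ j : ℤ) - ap q u j) ∈ D
    · rw [Finset.sum_ite_eq D (Sh (Fin.append v w) (fun j => (γ j : ℤ) - ap q u j)), if_pos hD]
      by_cases hy : ∀ j, (γ (Fin.castAdd q j) : ℤ) - u j ≤ μ0 j
      · rw [if_pos hy, if_pos ⟨hD, hy⟩]
      · rw [if_neg hy, if_neg (fun h => hy h.2)]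
    · rw [Finset.sum_ite_eq D (Sh (Fin.append v w) (fun j => (γ j : ℤ) - ap q u j)), if_neg hD,
        if_neg (fun h => hD h.1)]
      simp
  rw [Finset.sum_congr rfl hm, Finset.sum_comm]
  refine Finset.sum_congr rfl fun γ _ => ?_
  rw [Finset.mul_sum]
  refine Finset.sum_congr rfl fun m _ => ?_
  ring

/-! ### finiteness -/

lemma fin_of (μ0 : Fin r →₀ ℕ) (B : Finset (Fin r →₀ ℕ)) (k : ℤ) :
    ({c : Fin (r + q) → ℤ | (∀ l : Fin q, 0 ≤ c (Fin.natAdd r l)) ∧ ∑ j, c j = k ∧
      (∀ j, c (Fin.castAdd q j) ≤ μ0 j) ∧ mu μ0 (fun j => c (Fin.castAdd q j)) ∈ B} :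
        Set _).Finite := by
  classical
  obtain ⟨K, hK⟩ : ∃ K : ℤ, ∀ c' ∈ {c : Fin r → ℤ | (∀ j, c j ≤ μ0 j) ∧ mu μ0 c ∈ B},
      k - ∑ j, c' j ≤ K := by
    obtain ⟨K, hK⟩ := ((mu_fin μ0 B).image fun c' => k - ∑ j, c' j).bddAbove
    exact ⟨K, fun c' hc' => hK ⟨c', hc', rfl⟩⟩
  refine Set.Finite.of_finite_image (f := fun c : Fin (r + q) → ℤ =>
    ((fun j : Fin r => c (Fin.castAdd q j)), fun l : Fin q => c (Fin.natAdd r l))) ?_ ?_
  · refine ((mu_fin μ0 B).prod (Set.finite_Icc (0 : Fin q → ℤ) (fun _ => K))).subset ?_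
    rintro _ ⟨c, ⟨h1, h2, h3, h4⟩, rfl⟩
    refine ⟨⟨h3, h4⟩, fun l => h1 l, fun l => ?_⟩
    have h5 := hK (fun j => c (Fin.castAdd q j)) ⟨h3, h4⟩
    have h6 : c (Fin.natAdd r l) ≤ ∑ l, c (Fin.natAdd r l) :=
      Finset.single_le_sum (f := fun l => c (Fin.natAdd r l)) (fun l _ => h1 l)
        (Finset.mem_univ l)
    rw [Fin.sum_univ_add] at h2
    show c (Fin.natAdd r l) ≤ K
    omega
  · intro c _ d _ hcd
    have e1 := congrArg Prod.fst hcd
    have e2 := congrArg Prod.snd hcd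
    funext j
    refine Fin.addCases (fun j => ?_) (fun l => ?_) j
    · exact congrFun e1 j
    · exact congrFun e2 l

lemma al_fin (v : Fin r → Fin N → ℕ) (w : Fin q → Fin N → ℕ) (b : Fin q → F)
    (A : MvPolynomial (Fin N) (MvPolynomial (Fin r) F)) (μ0 : Fin r →₀ ℕ) (k : ℤ) :
    ({c : Fin (r + q) → ℤ | (∀ l : Fin q, 0 ≤ c (Fin.natAdd r l)) ∧ ∑ j, c j = k ∧
      al v w b A μ0 c ≠ 0} : Set _).Finite := by
  classical
  refine (fin_of μ0 (A.support.biUnion fun g => (coeff g A).support) k).subset ?_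
  rintro c ⟨h1, h2, hc⟩
  simp only [al] at hc
  split_ifs at hc with h0
  · refine ⟨h1, h2, h0.2, ?_⟩
    have hc' := left_ne_zero_of_mul hc
    rw [Finset.mem_biUnion]
    refine ⟨gam (Fin.append v w) c, mem_support_iff.2 fun h => hc' (by rw [h, coeff_zero]),
      mem_support_iff.2 hc'⟩
  · exact absurd rfl hc

lemma Gc_fin (v : Fin r → Fin N → ℕ) (w : Fin q → Fin N → ℕ) (b : Fin q → F)
    (D : Finset (Fin N → ℤ)) (T : Finset ℕ)
    (Q : ℕ → (Fin N → ℤ) → MvPolynomial (Fin N) (MvPolynomial (Fin r) F)) (μ0 : Fin r →₀ ℕ)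
    (k : ℤ) :
    ({c : Fin (r + q) → ℤ | (∀ l : Fin q, 0 ≤ c (Fin.natAdd r l)) ∧ ∑ j, c j = k ∧
      ∃ m ∈ T, Gc v w b D Q μ0 m c ≠ 0} : Set _).Finite := by
  classical
  refine (fin_of μ0 (T.biUnion fun m => D.biUnion fun δ => (Q m δ).support.biUnion fun g =>
    (coeff g (Q m δ)).support) k).subset ?_
  rintro c ⟨h1', h2', m, hm, hc⟩
  simp only [Gc] at hc
  split_ifs at hc with h0
  · refine ⟨h1', h2', h0.2, ?_⟩
    have hc' := right_ne_zero_of_mul hc
    have h1 : ∃ g ∈ (Q m (Sh (Fin.append v w) c)).support,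
        coeff (mu μ0 (fun j => c (Fin.castAdd q j)))
          (coeff g (Q m (Sh (Fin.append v w) c))) ≠ 0 := by
      by_contra hcon
      push Not at hcon
      apply hc'
      unfold Qy
      refine Finset.sum_eq_zero fun g hg => ?_
      rw [hcon g hg, monomial_zero]
    obtain ⟨g, hg, hg2⟩ := h1
    simp only [Finset.mem_biUnion]
    exact ⟨m, hm, Sh (Fin.append v w) c, h0.1, g, hg, mem_support_iff.2 hg2⟩
  · exact absurd rfl hc

end Pool.Agent.W368.SV
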